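import Pool.Agent.Q286.XG.Stm

set_option autoImplicit false

/-!
# Project EXG: `S_RGs`, trial functions for self-dual L-functions
-/

open Filter Topology
open scoped ComplexConjugate

namespace Pool.Agent.Q38.XG

open Pool.Agent Pool.Agent.Q286.XG Pool.Agent.Q286 Pool.Agent.Q240

theorem mc_eq (D : Y23.G.ZD) (s : ℂ) : mc (D := D) s = CG.wtD D s := by
  unfold mc CG.wtD
  rfl

theorem wt_conj (D : Y23.G.ZD) [h : @CG.SD D] (s : ℂ) : CG.wtD D (conj s) = CG.wtD D s := by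
  unfold CG.wtD
  by_cases hs : s ∈ D.Zs
  · rw [if_pos hs, if_pos (CG.SD.cj s hs), CG.SD.mcj s hs]
  · rw [if_neg hs, if_neg]
    intro h1
    have := CG.SD.cj _ h1
    rw [Complex.conj_conj] at this
    exact hs this

theorem SS_plane (D : Y23.G.ZD) (G : ℝ → ℂ) :
    Y23.G.SS (D := D) G = ∑' s : ℂ, (CG.wtD D s : ℝ) * ‖Y23.TT G (s - 1 / 2)‖ ^ 2 :=
  CG.tsum_zt D fun s => ‖Y23.TT G (s - 1 / 2)‖ ^ 2

theorem wt_two (D : Y23.G.ZD) [h : @CG.SD D] (s : ℂ) : CG.wtD (CG.symD D) s = 2 * CG.wtD D s := by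
  rw [CG.wtD_sym, wt_conj D s]
  ring

theorem SS_two (D : Y23.G.ZD) [h : @CG.SD D] (G : ℝ → ℂ) :
    Y23.G.SS (D := CG.symD D) G = 2 * Y23.G.SS (D := D) G := by
  rw [SS_plane, SS_plane, ← tsum_mul_left]
  refine tsum_congr fun s => ?_
  rw [wt_two]
  push_cast
  ring

/-- **RGs** -/
theorem rgs : S_RGs := by
  intro hL L hSD γ c hc
  have hSD' : @CG.SD (TR.D1 L) := CG.sd_of (L := TR.toL L) hSD
  have hR := hL (L := TR.toL L)
  have hm : (1 : ℝ) ≤ L.m := by exact_mod_cast L.one_le_m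
  have hQ : (0 : ℝ) < L.Q := lt_of_lt_of_le one_pos L.one_le_Q
  have hq : Y23.G.cc (L := TR.toL L) = Real.pi * L.m * L.Q ^ (-(1 / (L.m : ℝ))) := by
    unfold Y23.G.cc
    rw [Real.rpow_def_of_pos hQ]
    congr 2
    show -(Real.log L.Q / L.m) = Real.log L.Q * -(1 / (L.m : ℝ))
    ring
  rw [← hq] at hc
  obtain ⟨c', hc1, hc2⟩ := exists_between hc
  obtain ⟨C, hC⟩ := hR γ c' hc2
  refine ⟨C, ?_⟩
  have hE : Tendsto (fun a : ℝ => Real.exp (2 * a / L.m)) atTop atTop := by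
    refine Real.tendsto_exp_atTop.comp ?_
    refine Tendsto.atTop_div_const (by linarith) ?_
    exact tendsto_id.const_mul_atTop (by norm_num)
  have hE2 : Tendsto (fun a : ℝ => (c' - c) * Real.exp (2 * a / L.m)) atTop atTop :=
    hE.const_mul_atTop (by linarith)
  filter_upwards [hC, hE2.eventually_ge_atTop (Real.log 2)] with a ha h5
  obtain ⟨G, h1, h2, h3, h4⟩ := ha
  refine ⟨G, h1, h2, h3, ?_⟩
  have e1 : Y23.G.SS (D := TR.D2 L) G = 2 * Y23.G.SS (D := TR.D1 L) G := SS_two (TR.D1 L) G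
  have e2 : (mc (D := TR.D2 L) (1 / 2 + Complex.I * γ) : ℝ) = 2 * (mc (D := TR.D1 L) (1 / 2 + Complex.I * γ) : ℝ) := by
    rw [mc_eq, mc_eq, wt_two (TR.D1 L)]
    push_cast
    ring
  have h6 : 2 * Real.exp (-(c' * Real.exp (2 * a / L.m))) ≤ Real.exp (-(c * Real.exp (2 * a / L.m))) := by
    have h7 : Real.exp (Real.log 2 + -(c' * Real.exp (2 * a / L.m))) ≤ Real.exp (-(c * Real.exp (2 * a / L.m))) := by
      rw [Real.exp_le_exp]
      have e3 : (c' - c) * Real.exp (2 * a / L.m) = c' * Real.exp (2 * a / L.m) - c * Real.exp (2 * a / L.m) := by ring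
      linarith
    rwa [Real.exp_add, Real.exp_log (by norm_num)] at h7
  have h8 : Y23.G.SS (D := TR.D1 L) G ≤ (mc (D := TR.D1 L) (1 / 2 + Complex.I * γ) : ℝ) +
      Real.exp (-(c' * Real.exp (2 * a / L.m))) := h4
  rw [e1, e2]
  linarith

end Pool.Agent.Q38.XG
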