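import Pool.Agent.Q38.XG.XtE

set_option autoImplicit false

/-!
# Project EXG: `S_NegG`, if the Riemann hypothesis fails the form is unbounded from below
-/

open Filter Topology
open scoped ComplexConjugate
open Pool.Agent.Q240
open Pool.Agent.Q240.CD

namespace Pool.Agent.Q38.XG

open Pool.Agent Pool.Agent.Q286.XG

lemma large_t (Q0 b q B : ℝ) (hq : q < 0) : ∃ s : ℝ, Q0 + 2 * (s * b) + s ^ 2 * q < -B := by
  obtain ⟨u, hu⟩ : ∃ u : ℝ, u = (2 * |b| + |Q0| + |B|) / (-q) := ⟨_, rfl⟩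
  have hq' : 0 < -q := by linarith
  have hu0 : 0 ≤ u := by rw [hu]; positivity
  have hu1 : u * (-q) = 2 * |b| + |Q0| + |B| := by rw [hu]; exact div_mul_cancel₀ _ hq'.ne'
  refine ⟨1 + u, ?_⟩
  have h1 : (1 + u) ^ 2 * q = -((1 + u) * (-q)) - (1 + u) * (2 * |b| + |Q0| + |B|) := by
    linear_combination (-(1 + u)) * hu1
  have h2 : (1 + u) * b ≤ (1 + u) * |b| := mul_le_mul_of_nonneg_left (le_abs_self b) (by linarith)
  have h3 : 0 ≤ u * |Q0| := by positivity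
  have h4 : 0 ≤ u * |B| := by positivity
  have h5 : 0 ≤ u * (-q) := by positivity
  have h6 := le_abs_self Q0
  have h7 := le_abs_self B
  rw [h1]
  nlinarith

section gen

/-- the form is invariant under the reflection -/
theorem QQ_rfG {D : Y23.G.ZD} [S : @CG.SD D] (f : ℝ → ℂ) :
    Y23.G.QQ (D := D) (fun x => f (-x)) = Y23.G.QQ (D := D) f := by
  have hz : ∀ s : ℂ, s ∈ D.Zs → 1 - s ∈ D.Zs := by
    intro s hs
    have h := D.refl _ (S.cj s hs)
    rwa [Complex.conj_conj] at h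
  have hm : ∀ s : ℂ, s ∈ D.Zs → D.mul (1 - s) = D.mul s := by
    intro s hs
    have h := D.mrefl _ (S.cj s hs)
    rw [Complex.conj_conj] at h
    rw [h, S.mcj s hs]
  have hw : ∀ s : ℂ, CG.wtD D (1 - s) = CG.wtD D s := by
    intro s
    unfold CG.wtD
    by_cases h : s ∈ D.Zs
    · rw [if_pos h, if_pos (hz s h), hm s h]
    · rw [if_neg h, if_neg]
      intro h1
      have h2 := hz _ h1
      rw [sub_sub_cancel] at h2
      exact h h2
  have e1 : Y23.G.QQ (D := D) f = ∑' s : ℂ, (CG.wtD D s : ℝ) * (Y23.G.GG f f (s - 1 / 2)).re :=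
    CG.tsum_zt D fun s => (Y23.G.GG f f (s - 1 / 2)).re
  have e2 : Y23.G.QQ (D := D) (fun x => f (-x)) = ∑' s : ℂ, (CG.wtD D s : ℝ) *
      (Y23.G.GG (fun x => f (-x)) (fun x => f (-x)) (s - 1 / 2)).re :=
    CG.tsum_zt D fun s => (Y23.G.GG (fun x => f (-x)) (fun x => f (-x)) (s - 1 / 2)).re
  rw [e1, e2, ← (Equiv.subLeft (1 : ℂ)).tsum_eq]
  refine tsum_congr fun s => ?_
  have e : (Equiv.subLeft (1 : ℂ)) s = 1 - s := rfl
  rw [e, hw]
  congr 2
  unfold Y23.G.GG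
  rw [Y23.TT_rf, Y23.TT_rf]
  congr 3
  · ring
  · rw [map_sub, map_sub, map_sub]
    simp only [map_one, map_div₀, map_ofNat]
    ring

variable [D : Y23.G.ZD]

/-- the even part has a nonnegative form if all zeros off the line are real -/
theorem QQ_even_nn (hre : ∀ ρ : Y23.G.Zt, (ρ : ℂ).re ≠ 1 / 2 → (ρ : ℂ).im = 0) {f : ℝ → ℂ} (hf : ∀ x, f (-x) = f x) :
    0 ≤ Y23.G.QQ f := by
  unfold Y23.G.QQ
  refine tsum_nonneg fun ρ => mul_nonneg (Nat.cast_nonneg _) ?_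
  unfold Y23.G.GG
  have key : ∀ z : ℂ, 0 ≤ (z * conj z).re := by
    intro z
    rw [Complex.mul_conj, Complex.ofReal_re]
    exact Complex.normSq_nonneg z
  by_cases h : (ρ : ℂ).re = 1 / 2
  · have e : -conj ((ρ : ℂ) - 1 / 2) = (ρ : ℂ) - 1 / 2 := by
      apply Complex.ext
      · simp [h]
      · simp
    rw [e]
    exact key _
  · have h1 := hre ρ h
    have e : -conj ((ρ : ℂ) - 1 / 2) = -((ρ : ℂ) - 1 / 2) := by
      apply Complex.ext
      · simp
      · simp [h1]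
    have e2 : Y23.TT f (-((ρ : ℂ) - 1 / 2)) = Y23.TT f ((ρ : ℂ) - 1 / 2) := by
      rw [← Y23.TT_rf]
      congr 1
      funext x
      exact hf x
    rw [e, e2]
    exact key _

end gen

/-- a function with negative form whose transform vanishes at `0` -/
theorem negz [D : Y23.G.ZD] [EC : Y23.G.ZC] [CG.SD] (hRH : ¬ RHG) (n : ℝ → ℕ)
    (hn : Tendsto (fun a : ℝ => (n a : ℝ) / a) atTop atTop) : ∀ᶠ a : ℝ in atTop, 0 < a ∧ ∃ G : ℝ → ℂ,
      Y23.G.F.Hn a (n a : ℕ∞) G ∧ Y23.TT G 0 = 0 ∧ Y23.G.QQ G < 0 := by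
  by_cases hre : ∀ ρ : Y23.G.Zt, (ρ : ℂ).re ≠ 1 / 2 → (ρ : ℂ).im = 0
  · -- all zeros off the line are real
    obtain ⟨ρ, hρ⟩ : ∃ ρ : Y23.G.Zt, 1 / 2 < (ρ : ℂ).re := by
      unfold RHG at hRH
      push Not at hRH
      obtain ⟨ρ, hρ⟩ := hRH
      rcases lt_or_gt_of_ne hρ with h1 | h1
      · refine ⟨⟨1 - conj (ρ : ℂ), D.refl _ ρ.2⟩, ?_⟩
        rw [Complex.sub_re, Complex.one_re, Complex.conj_re]
        linarith
      · exact ⟨ρ, h1⟩
    have hev := CG.jb.test n hn 1 ![(ρ : ℂ)] (by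
        intro i j hij
        exact Subsingleton.elim i j) (by
        intro i
        fin_cases i
        exact ρ.2) 0 le_rfl (by
        intro i
        fin_cases i
        show (0 : ℝ) < (ρ : ℂ).re - 1 / 2
        linarith)
    filter_upwards [hev, eventually_gt_atTop 0] with a h1 ha
    obtain ⟨f, hf, h2⟩ := h1
    have hfn : Y23.G.F.Hn a (n a : ℕ∞) (f 0) := Tg_Hn ha (hf 0)
    have hQ : Y23.G.QQ (f 0) < 0 := by
      have h3 := (h2 fun _ => 1).1
      simp only [Fin.sum_univ_one, one_mul, norm_one, one_pow, mul_one, mul_zero, zero_mul, Real.exp_zero] at h3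
      have e : (fun x => f 0 x) = f 0 := rfl
      rw [e] at h3
      linarith
    refine ⟨ha, fun x => (1 / 2 : ℂ) * (f 0 x - f 0 (-x)), ?_, ?_, ?_⟩
    · exact (hfn.sub hfn.rf).smul _
    · rw [Y23.TT_smul, Y23.TT_sub hfn.1 hfn.rf.1, Y23.TT_rf, neg_zero, sub_self, mul_zero]
    · have hE : Y23.G.F.Hn a (n a : ℕ∞) (fun x => (1 / 2 : ℂ) * (f 0 x + f 0 (-x))) := (hfn.add hfn.rf).smul _
      have hO : Y23.G.F.Hn a (n a : ℕ∞) (fun x => (1 / 2 : ℂ) * (f 0 x - f 0 (-x))) := (hfn.sub hfn.rf).smul _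
      have h4 := QQ_par ha hE.hd hO.hd
      have e1 : (fun x => (1 / 2 : ℂ) * (f 0 x + f 0 (-x)) + (1 / 2 : ℂ) * (f 0 x - f 0 (-x))) = f 0 := by
        funext x
        ring
      have e2 : (fun x => (1 / 2 : ℂ) * (f 0 x + f 0 (-x)) - (1 / 2 : ℂ) * (f 0 x - f 0 (-x))) = fun x => f 0 (-x) := by
        funext x
        ring
      rw [e1, e2, QQ_rfG] at h4
      have h5 : 0 ≤ Y23.G.QQ (fun x => (1 / 2 : ℂ) * (f 0 x + f 0 (-x))) :=
        QQ_even_nn hre fun x => by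
          show (1 / 2 : ℂ) * (f 0 (-x) + f 0 (- -x)) = _
          rw [neg_neg, add_comm]
      linarith
  · -- there is a zero off the line which is not real
    push Not at hre
    obtain ⟨ρ, hρ1, hρ2⟩ : ∃ ρ : Y23.G.Zt, 1 / 2 < (ρ : ℂ).re ∧ (ρ : ℂ).im ≠ 0 := by
      obtain ⟨ρ, hρ, hi⟩ := hre
      rcases lt_or_gt_of_ne hρ with h1 | h1
      · refine ⟨⟨1 - conj (ρ : ℂ), D.refl _ ρ.2⟩, ?_, ?_⟩
        · rw [Complex.sub_re, Complex.one_re, Complex.conj_re]
          linarith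
        · rw [Complex.sub_im, Complex.one_im, Complex.conj_im]
          simpa using hi
      · exact ⟨ρ, h1, hi⟩
    have hev := CG.jb.test n hn 2 ![(ρ : ℂ), conj (ρ : ℂ)] (by
        intro i j hij
        have h1 : conj (ρ : ℂ) ≠ (ρ : ℂ) := by
          intro h
          exact hρ2 (Complex.conj_eq_iff_im.1 h)
        fin_cases i <;> fin_cases j
        · rfl
        · exact absurd hij.symm h1
        · exact absurd hij h1
        · rfl) (by
        intro i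
        fin_cases i
        · exact ρ.2
        · exact CG.SD.cj _ ρ.2) 0 le_rfl (by
        intro i
        fin_cases i
        · show (0 : ℝ) < (ρ : ℂ).re - 1 / 2
          linarith
        · show (0 : ℝ) < (conj (ρ : ℂ)).re - 1 / 2
          rw [Complex.conj_re]
          linarith)
    filter_upwards [hev, eventually_gt_atTop 0] with a h1 ha
    obtain ⟨f, hf, h2⟩ := h1
    have hfn : ∀ i, Y23.G.F.Hn a (n a : ℕ∞) (f i) := fun i => Tg_Hn ha (hf i)
    -- a combination which vanishes at 0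
    obtain ⟨t, ht0, htne⟩ : ∃ t : Fin 2 → ℂ, t 0 * Y23.TT (f 0) 0 + t 1 * Y23.TT (f 1) 0 = 0 ∧ 0 < ∑ i, ‖t i‖ ^ 2 := by
      by_cases h : Y23.TT (f 0) 0 = 0
      · exact ⟨![1, 0], by simp [h], by simp [Fin.sum_univ_two]⟩
      · refine ⟨![-Y23.TT (f 1) 0, Y23.TT (f 0) 0], ?_, ?_⟩
        · simp only [Matrix.cons_val_zero, Matrix.cons_val_one]
          ring
        · rw [Fin.sum_univ_two]
          simp only [Matrix.cons_val_zero, Matrix.cons_val_one]
          exact add_pos_of_nonneg_of_pos (sq_nonneg _) (pow_pos (norm_pos_iff.2 h) 2)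
    obtain ⟨G, hG⟩ : ∃ G : ℝ → ℂ, G = fun x => t 0 * f 0 x + t 1 * f 1 x := ⟨_, rfl⟩
    have hGs : (fun x => ∑ i, t i * f i x) = G := by
      rw [hG]
      funext x
      rw [Fin.sum_univ_two]
    refine ⟨ha, G, ?_, ?_, ?_⟩
    · rw [hG]
      exact ((hfn 0).smul _).add ((hfn 1).smul _)
    · rw [hG, Y23.TT_add ((hfn 0).smul (t 0)).1 ((hfn 1).smul (t 1)).1, Y23.TT_smul, Y23.TT_smul, ht0]
    · have h3 := (h2 t).1
      rw [hGs, mul_zero, zero_mul, Real.exp_zero] at h3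
      linarith

/-- **NegG** -/
theorem negG : S_NegG := by
  intro D _ _ hRH n hn
  filter_upwards [negz hRH n hn] with a h B
  obtain ⟨ha, G, hGn, hG0, hGQ⟩ := h
  -- the function with value 1
  obtain ⟨e, he⟩ : ∃ e : ℝ → ℂ, e = fun x => (2 * (a : ℂ))⁻¹ * Y23.G.F.ek a 0 x := ⟨_, rfl⟩
  have hen : Y23.G.F.Hn a (n a : ℕ∞) e := by
    rw [he]
    exact (Y23.G.F.Hn_ek ha (by simp)).smul _
  have he0 : Y23.TT e 0 = 1 := by
    have h3 := Y23.G.F.TT_ek_self ha 0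
    have h4 : Y23.G.F.nd a 0 = 0 := by unfold Y23.G.F.nd; simp
    rw [h4] at h3
    have ha' : (a : ℂ) ≠ 0 := by exact_mod_cast ha.ne'
    rw [he, Y23.TT_smul, h3]
    field_simp
  obtain ⟨s, hs⟩ := large_t (Y23.G.QQ e) ((Y23.G.QB e G).re) (Y23.G.QQ G) B hGQ
  refine ⟨fun x => e x + (s : ℂ) * G x, hen.add (hGn.smul _), ?_, ?_⟩
  · rw [Y23.TT_add hen.1 (hGn.smul _).1, Y23.TT_smul, hG0, he0, mul_zero, add_zero]
  · rw [QQ_line ha hen.hd hGn.hd (s : ℂ), Complex.conj_ofReal, Complex.re_ofReal_mul, Complex.norm_real,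
      Real.norm_eq_abs, sq_abs]
    exact hs

end Pool.Agent.Q38.XG
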