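import Pool.Agent.Q286.XG.Stm

set_option autoImplicit false

/-!
# Project EXG: `S_XtEG`, extremal functions exist
-/

open Filter Topology
open scoped ComplexConjugate

namespace Pool.Agent.Q38.XG

open Pool.Agent Pool.Agent.Q286.XG

section gen

variable [D : Y23.G.ZD]

theorem bq0 (f : ℝ → ℂ) : Y23.G.bq 0 f = Y23.G.QQ f := by
  unfold Y23.G.bq
  rw [zero_mul, sub_zero]

theorem BB0 (f g : ℝ → ℂ) : Y23.G.BB 0 f g = Y23.G.QB f g := by
  unfold Y23.G.BB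
  rw [Complex.ofReal_zero, zero_mul, sub_zero]

theorem QQ_nn (hRH : RHG) (f : ℝ → ℂ) : 0 ≤ Y23.G.QQ f := by
  rw [Y23.G.QQ_eq_SS hRH]
  exact Y23.G.SS_nonneg f

variable [EC : Y23.G.ZC]

theorem QQ_line {a : ℝ} (ha : 0 < a) {f g : ℝ → ℂ} (hf : Y23.G.Hd a f) (hg : Y23.G.Hd a g) (t : ℂ) :
    Y23.G.QQ (fun x => f x + t * g x) = Y23.G.QQ f + 2 * (conj t * Y23.G.QB f g).re + ‖t‖ ^ 2 * Y23.G.QQ g := by
  have := Y23.G.bq_line ha 0 hf hg t
  rw [bq0, bq0, bq0, BB0] at this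
  exact this

theorem QQ_par {a : ℝ} (ha : 0 < a) {f g : ℝ → ℂ} (hf : Y23.G.Hd a f) (hg : Y23.G.Hd a g) :
    Y23.G.QQ (fun x => f x + g x) + Y23.G.QQ (fun x => f x - g x) = 2 * Y23.G.QQ f + 2 * Y23.G.QQ g := by
  have h1 := QQ_line ha hf hg 1
  have h2 := QQ_line ha hf hg (-1)
  simp only [one_mul, map_one, norm_one, one_pow, map_neg, norm_neg, neg_mul, Complex.neg_re] at h1 h2
  have e : (fun x => f x + -g x) = fun x => f x - g x := by
    funext x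
    ring
  rw [e] at h2
  linarith

/-- a weighted triangle inequality -/
theorem QQ_wt (hRH : RHG) {a : ℝ} (ha : 0 < a) {f g : ℝ → ℂ} (hf : Y23.G.Hd a f) (hg : Y23.G.Hd a g) {s : ℝ}
    (hs : 0 < s) : Y23.G.QQ (fun x => f x + g x) ≤ (1 + s) * Y23.G.QQ f + (1 + 1 / s) * Y23.G.QQ g := by
  have h1 := QQ_line ha hf hg 1
  have h2 := QQ_line ha hf hg (-((1 / s : ℝ) : ℂ))
  have h3 := QQ_nn hRH (fun x => f x + (-((1 / s : ℝ) : ℂ)) * g x)
  rw [h2] at h3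
  simp only [one_mul, map_one, norm_one, one_pow] at h1
  rw [map_neg, Complex.conj_ofReal, neg_mul, Complex.neg_re, Complex.re_ofReal_mul, norm_neg, Complex.norm_real,
    Real.norm_eq_abs, sq_abs] at h3
  have h4 := mul_le_mul_of_nonneg_left h3 hs.le
  have h5 : s * (Y23.G.QQ f + 2 * -(1 / s * (Y23.G.QB f g).re) + (1 / s) ^ 2 * Y23.G.QQ g) =
      s * Y23.G.QQ f - 2 * (Y23.G.QB f g).re + 1 / s * Y23.G.QQ g := by
    field_simp
    ring
  rw [h5, mul_zero] at h4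
  rw [h1]
  have h6 : (1 + s) * Y23.G.QQ f + (1 + 1 / s) * Y23.G.QQ g = Y23.G.QQ f + s * Y23.G.QQ f + Y23.G.QQ g +
      1 / s * Y23.G.QQ g := by ring
  rw [h6]
  linarith

/-- the form is bounded from below by the norm -/
theorem low (hRH : RHG) {a : ℝ} {ν : ℕ∞} (ha : 0 < a) : ∃ l : ℝ, 0 < l ∧ ∀ f : ℝ → ℂ, Y23.G.F.Hn a ν f →
    l * Y23.N2 f ≤ Y23.G.QQ f := by
  refine ⟨Y23.G.F.Gn a ν, ?_, fun f hf => ?_⟩
  · obtain ⟨e, he, hN⟩ := Y23.G.F.exists_ground (ν := ν) ha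
    by_contra hcon
    have h1 := he.2
    unfold Y23.G.bq at h1
    have h2 : Y23.G.QQ e ≤ 0 := by
      have h3 : Y23.G.F.Gn a ν * Y23.N2 e ≤ 0 := mul_nonpos_of_nonpos_of_nonneg (not_lt.1 hcon) hN.le
      linarith
    have h3 := Pool.Agent.Q247.CG.posG hRH a ν e ha he.1 h2
    have h4 := Y23.G.N2_zero_of_TT he.1.1 h3
    linarith
  · have := Y23.G.F.bq_nonneg ha hf
    unfold Y23.G.bq at this
    linarith

end gen

/-- **XtEG** -/
theorem xtEG : S_XtEG := by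
  intro D _ hRH a ν ha
  obtain ⟨l, hl, hlow⟩ := low hRH (ν := ν) ha
  obtain ⟨C, hC, hco⟩ := Y23.G.F.coer (ν := ν) ha
  obtain ⟨C', hC', hdom⟩ := Y23.G.F.dom_of_Hd (ν := ν) ha
  -- the infimum
  obtain ⟨S, hS⟩ : ∃ S : Set ℝ, S = {r : ℝ | ∃ f : ℝ → ℂ, Y23.G.F.Hn a ν f ∧ Y23.TT f 0 = 1 ∧ Y23.G.QQ f = r} := ⟨_, rfl⟩
  have hne : S.Nonempty := by
    rw [hS]
    refine ⟨_, fun x => ((1 / (2 * a) : ℝ) : ℂ) * Y23.G.F.ek a 0 x, (Y23.G.F.Hn_ek ha (by simp)).smul _, ?_, rfl⟩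
    have h0 : Y23.G.F.nd a 0 = 0 := by
      unfold Y23.G.F.nd
      simp
    have h1 := Y23.G.F.TT_ek_self ha 0
    rw [h0] at h1
    rw [Y23.TT_smul, h1]
    have h2 : (a : ℂ) ≠ 0 := by exact_mod_cast ha.ne'
    push_cast
    field_simp
  have hbd : BddBelow S := by
    refine ⟨0, ?_⟩
    rw [hS]
    rintro r ⟨f, -, -, rfl⟩
    exact QQ_nn hRH f
  obtain ⟨d, hd⟩ : ∃ d : ℝ, d = sInf S := ⟨_, rfl⟩
  have hdle : ∀ f : ℝ → ℂ, Y23.G.F.Hn a ν f → Y23.TT f 0 = 1 → d ≤ Y23.G.QQ f := by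
    intro f hf h1
    rw [hd]
    refine csInf_le hbd ?_
    rw [hS]
    exact ⟨f, hf, h1, rfl⟩
  have hseq : ∀ n : ℕ, ∃ f : ℝ → ℂ, Y23.G.F.Hn a ν f ∧ Y23.TT f 0 = 1 ∧ Y23.G.QQ f < d + 1 / ((n : ℝ) + 1) := by
    intro n
    have h1 : sInf S < d + 1 / ((n : ℝ) + 1) := by
      rw [← hd]
      have : (0 : ℝ) < 1 / ((n : ℝ) + 1) := by positivity
      linarith
    obtain ⟨r, hr, hr2⟩ := exists_lt_of_csInf_lt hne h1
    rw [hS] at hr
    obtain ⟨f, hf, h2, rfl⟩ := hr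
    exact ⟨f, hf, h2, hr2⟩
  choose f hf hf1 hfQ using hseq
  -- the distances
  have hdist : ∀ m n : ℕ, Y23.G.QQ (fun x => f m x - f n x) ≤ 2 / ((m : ℝ) + 1) + 2 / ((n : ℝ) + 1) := by
    intro m n
    have h1 := QQ_par ha (hf m).hd (hf n).hd
    have h2 : Y23.G.F.Hn a ν (fun x => (1 / 2 : ℂ) * (f m x + f n x)) := ((hf m).add (hf n)).smul _
    have h3 : Y23.TT (fun x => (1 / 2 : ℂ) * (f m x + f n x)) 0 = 1 := by
      rw [Y23.TT_smul, Y23.TT_add (hf m).1 (hf n).1, hf1, hf1]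
      norm_num
    have h4 := hdle _ h2 h3
    rw [Y23.G.QQ_smul] at h4
    have h5 : ‖(1 / 2 : ℂ)‖ ^ 2 = 1 / 4 := by
      norm_num
    rw [h5] at h4
    have h6 := hfQ m
    have h7 := hfQ n
    have e1 : 2 / ((m : ℝ) + 1) = 2 * (1 / ((m : ℝ) + 1)) := by ring
    have e2 : 2 / ((n : ℝ) + 1) = 2 * (1 / ((n : ℝ) + 1)) := by ring
    rw [e1, e2]
    linarith
  obtain ⟨B, hB⟩ : ∃ B : ℝ, B = 4 * Real.pi + C / l := ⟨_, rfl⟩
  have hB0 : 0 < B := by
    rw [hB]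
    have := Real.pi_pos
    positivity
  have hLL : ∀ m n : ℕ, Y23.G.LL (fun x => f m x - f n x) ≤ B * (2 / ((m : ℝ) + 1) + 2 / ((n : ℝ) + 1)) := by
    intro m n
    have h1 := hco _ ((hf m).sub (hf n))
    have h2 := hlow _ ((hf m).sub (hf n))
    have h3 : Y23.N2 (fun x => f m x - f n x) ≤ Y23.G.QQ (fun x => f m x - f n x) / l := by
      rw [le_div_iff₀ hl]
      linarith
    have h4 := mul_le_mul_of_nonneg_left h3 hC.le
    have h5 : Y23.G.LL (fun x => f m x - f n x) ≤ B * Y23.G.QQ (fun x => f m x - f n x) := by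
      rw [hB]
      have e : (4 * Real.pi + C / l) * Y23.G.QQ (fun x => f m x - f n x) =
          4 * Real.pi * Y23.G.QQ (fun x => f m x - f n x) + C * (Y23.G.QQ (fun x => f m x - f n x) / l) := by
        field_simp
      rw [e]
      linarith
    exact h5.trans (mul_le_mul_of_nonneg_left (hdist m n) hB0.le)
  have hsmall : ∀ ε : ℝ, 0 < ε → ∃ N : ℕ, ∀ n : ℕ, N ≤ n → 1 / ((n : ℝ) + 1) ≤ ε := by
    intro ε hε
    obtain ⟨N, hN⟩ := exists_nat_one_div_lt hε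
    refine ⟨N, fun n hn => ?_⟩
    refine le_trans ?_ hN.le
    have : (N : ℝ) ≤ n := by exact_mod_cast hn
    exact one_div_le_one_div_of_le (by positivity) (by linarith)
  obtain ⟨F, hF, hlim⟩ := Y23.G.F.complete_seq ha hf (by
    intro ε hε
    obtain ⟨N, hN⟩ := hsmall (ε / (4 * B)) (by positivity)
    refine ⟨N, fun m n hm hn => (hLL m n).trans ?_⟩
    have h1 := hN m hm
    have h2 := hN n hn
    have e1 : 2 / ((m : ℝ) + 1) + 2 / ((n : ℝ) + 1) = 2 * (1 / ((m : ℝ) + 1)) + 2 * (1 / ((n : ℝ) + 1)) := by ring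
    rw [e1]
    have h3 : 2 * (1 / ((m : ℝ) + 1)) + 2 * (1 / ((n : ℝ) + 1)) ≤ 4 * (ε / (4 * B)) := by linarith
    refine (mul_le_mul_of_nonneg_left h3 hB0.le).trans (le_of_eq ?_)
    field_simp)
  refine ⟨F, hF, ?_, ?_⟩
  · -- the value at `0`
    have key : ∀ ε : ℝ, 0 < ε → ‖1 - Y23.TT F 0‖ ^ 2 ≤ ε := by
      intro ε hε
      obtain ⟨N, hN⟩ := hlim (ε / (2 * a)) (by positivity)
      have h1 := hN N le_rfl
      have hdd := (hf N).sub hF
      have h2 := Y23.norm_TT_le ha hdd.1 0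
      rw [Complex.zero_re, abs_zero, mul_zero, Real.exp_zero, mul_one, Y23.TT_sub (hf N).1 hF.1, hf1] at h2
      have h3 := Y23.G.F.N2_le_LL hdd
      have h4 := Y23.N2_nonneg (fun x => f N x - F x)
      have h5 : Y23.N2 (fun x => f N x - F x) ≤ ε / (2 * a) := by nlinarith [Real.pi_gt_three]
      calc ‖1 - Y23.TT F 0‖ ^ 2 ≤ 2 * a * Y23.N2 (fun x => f N x - F x) := h2
        _ ≤ 2 * a * (ε / (2 * a)) := mul_le_mul_of_nonneg_left h5 (by positivity)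
        _ = ε := by field_simp
    have h2 : ‖1 - Y23.TT F 0‖ ^ 2 = 0 :=
      le_antisymm (le_of_forall_pos_le_add fun ε hε => by rw [zero_add]; exact key ε hε) (sq_nonneg _)
    have h3 := norm_eq_zero.1 (pow_eq_zero_iff two_ne_zero |>.1 h2)
    exact (sub_eq_zero.1 h3).symm
  · intro g hg hg1
    refine le_trans ?_ (hdle g hg hg1)
    -- `QQ F ≤ d`
    have hd0 : 0 ≤ d := by
      rw [hd]
      refine le_csInf hne fun r hr => ?_
      rw [hS] at hr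
      obtain ⟨f, -, -, rfl⟩ := hr
      exact QQ_nn hRH f
    have step : ∀ s : ℝ, 0 < s → ∀ ε : ℝ, 0 < ε → Y23.G.QQ F ≤ (1 + s) * (d + ε) + (1 + 1 / s) * (C' * ε) := by
      intro s hs ε hε
      obtain ⟨N1, hN1⟩ := hsmall ε hε
      obtain ⟨N2, hN2⟩ := hlim ε hε
      obtain ⟨n, hn⟩ : ∃ n : ℕ, n = max N1 N2 := ⟨_, rfl⟩
      have h1 := hN1 n (by rw [hn]; exact le_max_left _ _)
      have h2 := hN2 n (by rw [hn]; exact le_max_right _ _)
      have hdd : Y23.G.F.Hn a ν (fun x => -1 * (f n x - F x)) := ((hf n).sub hF).smul (-1)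
      have h3 := QQ_wt hRH ha (hf n).hd hdd.hd hs
      have e1 : (fun x => f n x + -1 * (f n x - F x)) = F := by
        funext x
        ring
      rw [e1, Y23.G.QQ_smul, norm_neg, norm_one, one_pow, one_mul] at h3
      have h4 : Y23.G.QQ (fun x => f n x - F x) ≤ C' * ε := by
        rw [Y23.G.QQ_eq_SS hRH]
        exact (hdom _ ((hf n).sub hF)).2.trans (mul_le_mul_of_nonneg_left h2 hC'.le)
      have h5 : Y23.G.QQ (f n) ≤ d + ε := by
        have := hfQ n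
        linarith
      have h6 : (1 + s) * Y23.G.QQ (f n) ≤ (1 + s) * (d + ε) := mul_le_mul_of_nonneg_left h5 (by linarith)
      have h7 : (1 + 1 / s) * Y23.G.QQ (fun x => f n x - F x) ≤ (1 + 1 / s) * (C' * ε) :=
        mul_le_mul_of_nonneg_left h4 (by positivity)
      linarith
    have step2 : ∀ s : ℝ, 0 < s → Y23.G.QQ F ≤ (1 + s) * d := by
      intro s hs
      refine le_of_forall_pos_le_add fun δ hδ => ?_
      obtain ⟨A, hA⟩ : ∃ A : ℝ, A = (1 + s) + (1 + 1 / s) * C' := ⟨_, rfl⟩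
      have hA0 : 0 < A := by
        rw [hA]
        positivity
      have h1 := step s hs (δ / A) (by positivity)
      have h2 : (1 + s) * (d + δ / A) + (1 + 1 / s) * (C' * (δ / A)) = (1 + s) * d + A * (δ / A) := by
        rw [hA]
        ring
      rw [h2, mul_div_cancel₀ _ hA0.ne'] at h1
      exact h1
    refine le_of_forall_pos_le_add fun δ hδ => ?_
    have h1 := step2 (δ / (d + 1)) (by positivity)
    have h2 : δ / (d + 1) * d ≤ δ := by
      rw [div_mul_eq_mul_div, div_le_iff₀ (by linarith)]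
      nlinarith
    linarith

end Pool.Agent.Q38.XG
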